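import Pool.Agent.helper93.TV.Spec1

set_option autoImplicit false

namespace Pool.Agent.helper93.TV

open BigOperators Finset Matrix
open scoped ComplexOrder

section

variable {V : Type} [Fintype V] [DecidableEq V]

private lemma CS_diag (M : Matrix V V ℂ) (d d' : V → ℂ) (h : ∀ κ κ', M κ κ' ≠ 0 → d κ = d' κ') :
    diagonal d * M = M * diagonal d' := by
  ext κ κ'
  rw [diagonal_mul, mul_diagonal]
  by_cases hM : M κ κ' = 0
  · rw [hM, mul_zero, zero_mul]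
  · rw [h κ κ' hM, mul_comm]

private lemma CS_sq (P : Matrix V V ℂ) (d : V → ℝ) (hd : ∀ κ, 0 < d κ) (hP : P.PosSemidef)
    (hc : ∀ κ κ', P κ κ' ≠ 0 → d κ = d κ')
    (hsq : P * P = diagonal (fun κ => (d κ : ℂ)) * diagonal (fun κ => (d κ : ℂ))) :
    P = diagonal (fun κ => (d κ : ℂ)) := by
  have hcom : diagonal (fun κ => (d κ : ℂ)) * P = P * diagonal (fun κ => (d κ : ℂ)) :=
    CS_diag P _ _ fun κ κ' h => by rw [hc κ κ' h]
  have hpos : (diagonal (fun κ => (d κ : ℂ))).PosDef :=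
    PosDef.diagonal fun κ => by
      have := hd κ
      exact_mod_cast this
  have hu : IsUnit (P + diagonal (fun κ => (d κ : ℂ))) := (PosDef.posSemidef_add hP hpos).isUnit
  have h0 : (P + diagonal (fun κ => (d κ : ℂ))) * (P - diagonal (fun κ => (d κ : ℂ))) = 0 := by
    rw [mul_sub, add_mul, add_mul, hsq, hcom]
    abel
  have h1 : P - diagonal (fun κ => (d κ : ℂ)) = 0 := (hu.mul_right_eq_zero).1 h0
  exact sub_eq_zero.1 h1

end

theorem CS : CS_stmt := by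
  intro hBB hCC hCR hCB hRU hDU hU1 hU2 hS1 I V _ _ _ _ D F hF κ₀ κ₁
  have bb := hBB hU2 hS1 I V D F hF
  have cc := hCC hU1 hS1 I V D F hF
  have cr := hCR hU1 hU2 I V D F hF
  have cb := hCB I V D F hF
  obtain ⟨ru1, ru2⟩ := hRU I V D F hF
  have du := hDU hCC hU1 hS1 I V D F hF
  have hsc : ∀ a, D.sc F a ≠ 0 := fun a => hF.rigid a
  -- supports
  have suppC : ∀ κ κ', D.Cm F κ κ' ≠ 0 → D.s1 κ' = D.du (D.s1 κ) ∧ D.s2 κ' = D.t κ ∧
      D.t κ' = D.s2 κ := by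
    intro κ κ' h
    obtain ⟨⟨_, h2, h3, _, _, h6⟩, _, _⟩ := hF.uf.conn.supp _ _ _ _ h
    refine ⟨?_, h2.symm, ?_⟩
    · rw [← h3, D.s1_eta]
    · rw [← h6, D.t_lam]
  have suppR : ∀ κ γ, D.Rm F κ γ ≠ 0 → D.s1 γ = D.s2 κ ∧ D.s2 γ = D.du (D.t κ) ∧
      D.t γ = D.du (D.s1 κ) := by
    intro κ γ h
    obtain ⟨⟨_, h2, _, h4, h5, _⟩, _, _⟩ := hF.uf.conn.supp _ _ _ _ h
    refine ⟨h4.symm, ?_, ?_⟩
    · rw [← h5, D.s2_eta]
    · rw [h2, D.s2_eta]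
  obtain ⟨C, hC⟩ : ∃ C, C = D.Cm F := ⟨_, rfl⟩
  obtain ⟨R, hR⟩ : ∃ R, R = D.Rm F := ⟨_, rfl⟩
  obtain ⟨B, hB⟩ : ∃ B, B = D.Bm F := ⟨_, rfl⟩
  rw [← hC] at cc cr cb suppC ⊢
  rw [← hR] at cr cb ru1 ru2 suppR
  rw [← hB] at bb cr cb
  -- the matrix identities
  have m1 : C * R = Bᵀᴴ := by
    ext κ γ
    rw [mul_apply, conjTranspose_apply, transpose_apply]
    exact cr κ γ
  have m2 : Bᵀᴴ * B = diagonal (fun κ => D.sc F (D.s2 κ)) := by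
    ext κ γ
    rw [mul_apply, diagonal_apply]
    simp only [conjTranspose_apply, transpose_apply]
    exact bb κ γ
  have m3 : C * Cᵀᴴ = diagonal (fun κ => star (D.sc F (D.s1 κ))) := by
    ext κ γ
    rw [mul_apply, diagonal_apply]
    simp only [conjTranspose_apply, transpose_apply]
    exact cc κ γ
  have m4 : C = Rᵀ * Bᴴ * R := by
    ext η β
    rw [mul_apply]
    simp only [mul_apply, conjTranspose_apply, transpose_apply, Finset.sum_mul]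
    rw [cb η β]
    refine Finset.sum_congr rfl fun α _ => Finset.sum_congr rfl fun γ _ => ?_
    ring
  have m5 : B = Cᵀᴴ * Rᵀᴴ := by
    have h1 : B = (C * R)ᵀᴴ := by
      rw [m1]
      ext κ γ
      simp [conjTranspose_apply]
    rw [h1, transpose_mul, conjTranspose_mul]
  have m6 : Bᴴ = Rᵀ * Cᵀ := by
    rw [m5, conjTranspose_mul, conjTranspose_conjTranspose, conjTranspose_conjTranspose]
  have m7 : Cᴴ = Rᴴ * (Cᵀᴴ * Rᵀᴴ) * Rᵀᴴ := by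
    have h1 : C = Rᵀ * (Rᵀ * Cᵀ) * R := by rw [← m6, ← m4]
    have h2 := congrArg conjTranspose h1
    rw [conjTranspose_mul, conjTranspose_mul, conjTranspose_mul, ← mul_assoc Rᴴ] at h2
    rw [h2]
  have m8 : C * R * (Cᵀᴴ * Rᵀᴴ) = diagonal (fun κ => D.sc F (D.s2 κ)) := by
    rw [m1, ← m5, m2]
  -- inverses
  obtain ⟨Cb, hCb⟩ : ∃ Cb, Cb = Cᵀᴴ := ⟨_, rfl⟩
  obtain ⟨Rb, hRb⟩ : ∃ Rb, Rb = Rᵀᴴ := ⟨_, rfl⟩
  rw [← hCb] at m3 m7 m8
  rw [← hRb] at m7 m8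
  obtain ⟨D1, hD1⟩ : ∃ M : Matrix V V ℂ, M = diagonal (fun κ => star (D.sc F (D.s1 κ))) := ⟨_, rfl⟩
  obtain ⟨D1i, hD1i⟩ : ∃ M : Matrix V V ℂ, M = diagonal (fun κ => (star (D.sc F (D.s1 κ)))⁻¹) :=
    ⟨_, rfl⟩
  obtain ⟨D2, hD2⟩ : ∃ M : Matrix V V ℂ, M = diagonal (fun κ => D.sc F (D.s2 κ)) := ⟨_, rfl⟩
  rw [← hD1] at m3
  rw [← hD2] at m8
  have d11 : D1 * D1i = 1 := by
    rw [hD1, hD1i, diagonal_mul_diagonal, ← diagonal_one]
    congr 1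
    ext κ
    exact mul_inv_cancel₀ (star_ne_zero.2 (hsc _))
  have d11' : D1i * D1 = 1 := mul_eq_one_comm.1 d11
  obtain ⟨Ci, hCi⟩ : ∃ Ci, Ci = Cb * D1i := ⟨_, rfl⟩
  have c1 : C * Ci = 1 := by rw [hCi, ← mul_assoc, m3, d11]
  have c2 : Ci * C = 1 := mul_eq_one_comm.1 c1
  have c3 : Ci * D1 = Cb := by rw [hCi, mul_assoc, d11', mul_one]
  -- Rb
  have r1 : Cb * Rb = Rᴴ * (Ci * D2) := by
    rw [← m8, mul_assoc C, ← mul_assoc Ci, c2, one_mul, ← mul_assoc Rᴴ, ru2, one_mul]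
  have r2 : D1 * Rb = C * (Rᴴ * (Ci * D2)) := by
    rw [← r1, ← c3, mul_assoc Ci, ← mul_assoc C, c1, one_mul]
  have r3 : Rb = D1i * (C * (Rᴴ * (Ci * D2))) := by
    rw [← r2, ← mul_assoc, d11', one_mul]
  -- commutations
  obtain ⟨Dt, hDt⟩ : ∃ M : Matrix V V ℂ, M = diagonal (fun κ => D.sc F (D.t κ)) := ⟨_, rfl⟩
  obtain ⟨Ds, hDs⟩ : ∃ M : Matrix V V ℂ, M = diagonal (fun κ => (D.sc F (D.s1 κ))⁻¹) := ⟨_, rfl⟩
  have k1 : D2 * C = C * Dt := by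
    rw [hD2, hDt]
    refine CS_diag C _ _ fun κ κ' h => ?_
    rw [(suppC κ κ' h).2.2]
  have k2 : D1i * C = C * Ds := by
    rw [hD1i, hDs]
    refine CS_diag C _ _ fun κ κ' h => ?_
    rw [(suppC κ κ' h).1, (du (D.s1 κ)).1]
  have k3 : Dt * Ds * Rᴴ = Rᴴ * diagonal (fun κ => star (D.sc F (D.s1 κ)) * (D.sc F (D.s2 κ))⁻¹) := by
    rw [hDt, hDs, diagonal_mul_diagonal]
    refine CS_diag Rᴴ _ _ fun γ κ h => ?_
    rw [conjTranspose_apply] at h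
    have h' : R κ γ ≠ 0 := fun h0 => h (by rw [h0, star_zero])
    obtain ⟨e1, _, e3⟩ := suppR κ γ h'
    rw [e1, e3, (du (D.s1 κ)).1]
  -- P
  obtain ⟨E, hE⟩ : ∃ E : V → ℂ, E = fun κ => star (D.sc F (D.s1 κ)) * (D.sc F (D.s2 κ))⁻¹ *
    D.sc F (D.t κ) := ⟨_, rfl⟩
  have p1 : Cᴴ * C = Rᴴ * (Rᴴ * (Rᴴ * diagonal E)) := by
    have e0 : Rᴴ * diagonal E = Dt * Ds * Rᴴ * Dt := by
      rw [k3, mul_assoc, hDt, diagonal_mul_diagonal, hE]
    rw [e0, m7, r1]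
    have e1 : Rᴴ * (Rᴴ * (Ci * D2)) * Rb * C = Rᴴ * (Rᴴ * (Ci * (D2 * (Rb * C)))) := by
      simp only [mul_assoc]
    rw [e1, r3]
    have e2 : Ci * (D2 * (D1i * (C * (Rᴴ * (Ci * D2))) * C)) =
        Ci * (D2 * ((D1i * C) * (Rᴴ * (Ci * (D2 * C))))) := by
      simp only [mul_assoc]
    rw [e2, k1, k2]
    have e3 : Ci * (D2 * (C * Ds * (Rᴴ * (Ci * (C * Dt))))) =
        Ci * ((D2 * C) * (Ds * (Rᴴ * ((Ci * C) * Dt)))) := by
      simp only [mul_assoc]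
    rw [e3, k1, c2, one_mul]
    have e4 : Ci * (C * Dt * (Ds * (Rᴴ * Dt))) = (Ci * C) * (Dt * Ds * Rᴴ * Dt) := by
      simp only [mul_assoc]
    rw [e4, c2, one_mul]
  have p2 : (Cᴴ * C) * (Cᴴ * C) = diagonal (fun κ => star (E κ) * E κ) := by
    have hH : (Cᴴ * C)ᴴ = Cᴴ * C := by
      rw [conjTranspose_mul, conjTranspose_conjTranspose]
    have e1 : (Cᴴ * C) * (Cᴴ * C) = (Cᴴ * C)ᴴ * (Cᴴ * C) := by rw [hH]
    rw [e1, p1, conjTranspose_mul, conjTranspose_mul, conjTranspose_mul,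
      conjTranspose_conjTranspose]
    have e2 : (diagonal E)ᴴ * R * R * R * (Rᴴ * (Rᴴ * (Rᴴ * diagonal E))) =
        (diagonal E)ᴴ * (R * (R * ((R * Rᴴ) * (Rᴴ * (Rᴴ * diagonal E))))) := by
      simp only [mul_assoc]
    rw [e2, ru1, one_mul, ← mul_assoc R Rᴴ, ru1, one_mul, ← mul_assoc R Rᴴ, ru1, one_mul,
      diagonal_conjTranspose, diagonal_mul_diagonal]
    rfl
  obtain ⟨d, hd⟩ : ∃ d : V → ℝ, d = fun κ =>
    D.dm F (D.s2 κ) / (D.dm F (D.s1 κ) * D.dm F (D.t κ)) := ⟨_, rfl⟩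
  have hdm : ∀ a, 0 < D.dm F a := fun a => (du a).2.2
  have hdpos : ∀ κ, 0 < d κ := fun κ => by
    rw [hd]
    exact div_pos (hdm _) (mul_pos (hdm _) (hdm _))
  have hdE : ∀ κ, d κ = ‖E κ‖ := by
    intro κ
    rw [hd, hE]
    simp only [FD.dm, norm_mul, norm_inv, norm_star]
    have n1 := norm_ne_zero_iff.2 (hsc (D.s1 κ))
    have n2 := norm_ne_zero_iff.2 (hsc (D.s2 κ))
    have n3 := norm_ne_zero_iff.2 (hsc (D.t κ))
    field_simp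
  have hfin := CS_sq (Cᴴ * C) d hdpos (posSemidef_conjTranspose_mul_self C) (by
    intro κ κ' h
    rw [mul_apply] at h
    obtain ⟨α, _, hα⟩ := Finset.exists_ne_zero_of_sum_ne_zero h
    rw [conjTranspose_apply] at hα
    have h1 : C α κ ≠ 0 := fun h0 => hα (by rw [h0, star_zero, zero_mul])
    have h2 : C α κ' ≠ 0 := fun h0 => hα (by rw [h0, mul_zero])
    obtain ⟨a1, a2, a3⟩ := suppC α κ h1
    obtain ⟨b1, b2, b3⟩ := suppC α κ' h2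
    rw [hd]
    simp only [a1, a2, a3, b1, b2, b3]) (by
    rw [p2, diagonal_mul_diagonal]
    congr 1
    ext κ
    rw [hdE κ]
    have := RCLike.conj_mul (E κ)
    rw [sq] at this
    exact this)
  have hfin2 := congrFun (congrFun hfin κ₀) κ₁
  rw [mul_apply, diagonal_apply] at hfin2
  simp only [conjTranspose_apply] at hfin2
  rw [hfin2, hd]

end Pool.Agent.helper93.TV
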